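import Pool.Agent.H93.SC.Stmt
import Pool.Agent.H93.SC.Final
import Pool.Agent.H15.SC.All

/-!
# MP_f2954d_ag, Q1: the kernel of a supercritical collection of nef classes

All definitions used in the statement are in `Pool/Agent/H93/SC/Stmt.lean`.

Outline of the proof.
* Intersection numbers of globally generated divisors are degrees of generic complete intersections:
  for systems of sections `S 1, ..., S n` one adjoins to the function field `K` the generic
  coefficients of sections of the `S j`; the resulting field is finite over the field generated over
  `ℂ` by the coefficients, and its degree is the intersection number. The same index is used on the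
  residue fields of prime divisors and on generic complete intersections of higher dimension. The
  asymptotics of spaces of sections give `(H^n) = lim n! h⁰(mH) / m^n`, hence existence and
  uniqueness of the intersection form. On generic complete intersection surfaces and threefolds they
  give the Hodge index theorem and the bigness criterion of Siu. The space of numerical classes is
  finite dimensional (correspondences of curves).
* A prime divisor of a generic complete intersection threefold is the restriction of a prime divisor
  of `X` (type D), or it moves in a fourfold (type P). This comes from the restriction of valuations
  of `K(u)` to `K` and from the unique factorisation in polynomial rings.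
* Suppose that `η` is in the kernel `ker L`, but not in the span `V` of the prime divisors. One
  perturbs `L j` to ample classes `L j ε` and chooses `η ε` in `ker L` orthogonal to `V` for the
  perturbed form. By the criterion of Siu `(L 1 ε - d A) · L 2 ε ⋯ L m ε` is a positive
  combination of prime divisors `E i` of a generic threefold, and `∑ w i (E i · η ε · η ε)` has a
  positive limit. The Hodge index theorem on the `E i`, an estimate of `L 1 ε · η ε · E i` and, for
  type P, the inequality `A · L 1 ε · E i ≥ d A · A · E i` show that only divisors of type D outside
  `V` can contribute, and their limit is excluded by a second application of the Hodge index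
  theorem. The proof is an induction on the number of classes which are not ample.
-/

namespace Pool.Agent.Results.MP_f2954d_ag.SupercriticalKernel

open SC

/-- Let `X` (given by `w`) be a smooth complex projective variety of dimension `n = m + 2 ≥ 3`. The
intersection form of `X` exists and is unique, and for every supercritical collection
`L 1, …, L (n - 2)` of nef classes the kernel of `L 1 ⋯ L (n - 2)` on real divisor classes is
spanned by the classes of the prime divisors `D` with `L 1 ⋯ L (n - 2) · D = 0`. -/
theorem result : ∀ (K : Type) [Field K] [Algebra ℂ K] (N m : ℕ) (w : Fin (N + 1) → K), 1 ≤ m →
    IsSmoothProj w (m + 2) →
    (∃! μ : MultilinearMap ℝ (fun _ : Fin (m + 2) => DivR w) ℝ, IsIntersectionForm μ) ∧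
    ∀ μ : MultilinearMap ℝ (fun _ : Fin (m + 2) => DivR w) ℝ, IsIntersectionForm μ →
    ∀ L : Fin m → DivR w, (∀ i, NefClass μ (L i)) → Supercritical μ L →
    ∀ η : DivR w, InKernel μ L η ↔
      ∃ E : DivR w, (∀ D ∈ E.support, InKernel μ L (Finsupp.single D 1)) ∧ NumTrivial μ (η - E) :=
  final_of kernelTheorem

end Pool.Agent.Results.MP_f2954d_ag.SupercriticalKernel
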